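import Mathlib
import Pool.Agent.Zk44.UP.Dich2

/-!
# Exponentials of the elements of rational subspaces of finite-dimensional spaces over the algebraic
# numbers
-/

set_option autoImplicit false

namespace Pool.Agent.Zk44.UQ

open Module Complex
open Pool.Agent.R351 hiding tay tay_const
open Pool.Agent.Zk44.XO
open Pool.Agent.H301R2.SSE (QB)
open Pool.Agent.Zk44.UP

/-- **The logarithms of algebraic numbers in `V` and a bounded number of further elements are
sufficient.** -/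
theorem powers_log {g : ℕ} (L : ℕ) (t : Fin g → ℂ) (V : Submodule ℚ ℂ) (hc : Countable V) :
    ∃ (ι : Type) (z : ι → ℂ) (s : Finset ℂ), s.card ≤ g + L ∧ LinearIndependent ℚ z ∧
      (V ⊓ LOG) ⊔ Submodule.span ℚ (Set.range z ∪ s) = V ∧
      ∀ (n : ℕ) (σ : Fin n → ι), Function.Injective σ → GoodT QB t L (fun i => cexp (z (σ i))) := by
  classical
  obtain ⟨W₂, hW₂⟩ := Submodule.exists_isCompl (V ⊓ LOG : Submodule ℚ ℂ)
  have hsup : (V ⊓ LOG) ⊔ (W₂ ⊓ V) = V := by
    rw [← sup_inf_assoc_of_le W₂ (inf_le_left : V ⊓ LOG ≤ V), hW₂.sup_eq_top, top_inf_eq]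
  have hV' : ∀ v ∈ W₂ ⊓ V, v ∈ LOG → v = 0 := by
    rintro v ⟨h1, h2⟩ h3
    have h4 : v ∈ (V ⊓ LOG) ⊓ W₂ := ⟨⟨h2, h3⟩, h1⟩
    rw [hW₂.inf_eq_bot] at h4
    exact (Submodule.mem_bot ℚ).1 h4
  have hc' : Countable (W₂ ⊓ V : Submodule ℚ ℂ) := by
    have h1 : (V : Set ℂ).Countable := hc
    exact (h1.mono (fun v hv => hv.2) : ((W₂ ⊓ V : Submodule ℚ ℂ) : Set ℂ).Countable).to_subtype
  obtain ⟨ι, z, hzV, hzi, hcod, hgood⟩ := outB L t (W₂ ⊓ V) hV' hc'
  set U := Submodule.span ℚ (Set.range z) with hU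
  have hUV : U ≤ W₂ ⊓ V := by
    rw [hU, Submodule.span_le]
    rintro _ ⟨i, rfl⟩
    exact hzV i
  obtain ⟨W₁, hW₁⟩ := Submodule.exists_isCompl U
  have hsup2 : U ⊔ (W₁ ⊓ (W₂ ⊓ V)) = W₂ ⊓ V := by
    rw [← sup_inf_assoc_of_le W₁ hUV, hW₁.sup_eq_top, top_inf_eq]
  have hW'r : Module.rank ℚ (W₁ ⊓ (W₂ ⊓ V) : Submodule ℚ ℂ) < ((g + L + 1 : ℕ) : Cardinal) := by
    by_contra hcon
    rw [not_lt] at hcon
    obtain ⟨w, hw⟩ := exists_linearIndependent_of_le_rank hcon
    have hw' : LinearIndependent ℚ (fun i => (w i : ℂ)) :=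
      hw.map' (Submodule.subtype _) (Submodule.ker_subtype _)
    refine hcod (fun i => (w i : ℂ)) (fun i => (w i).2.2) (hzi.sum_type hw' ?_)
    refine hW₁.disjoint.mono_right ?_
    rw [Submodule.span_le]
    rintro _ ⟨i, rfl⟩
    exact (w i).2.1
  have hW'f : Module.Finite ℚ (W₁ ⊓ (W₂ ⊓ V) : Submodule ℚ ℂ) := by
    rw [← Module.rank_lt_aleph0_iff]
    exact hW'r.trans (Cardinal.natCast_lt_aleph0)
  have hW'd : finrank ℚ (W₁ ⊓ (W₂ ⊓ V) : Submodule ℚ ℂ) ≤ g + L := by
    rw [← Module.finrank_eq_rank, Nat.cast_lt] at hW'r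
    omega
  obtain ⟨s, hs1, hs2⟩ := exists_finset (W₁ ⊓ (W₂ ⊓ V) : Submodule ℚ ℂ)
  refine ⟨ι, z, s, hs1.trans hW'd, hzi, ?_, hgood⟩
  rw [Submodule.span_union, hs2, ← hU, hsup2, hsup]

/-- Independent logarithms in a space of finite dimension over the algebraic numbers. -/
theorem finrank_log_le (V : Submodule ℚ ℂ) (U : Submodule QB ℂ) [Module.Finite QB U]
    (hVU : ∀ v ∈ V, v ∈ U) :
    Module.Finite ℚ (V ⊓ LOG : Submodule ℚ ℂ) ∧
      finrank ℚ (V ⊓ LOG : Submodule ℚ ℂ) ≤ finrank QB U := by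
  classical
  have hr : Module.rank ℚ (V ⊓ LOG : Submodule ℚ ℂ) < ((finrank QB U + 1 : ℕ) : Cardinal) := by
    by_contra hcon
    rw [not_lt] at hcon
    obtain ⟨x, hx⟩ := exists_linearIndependent_of_le_rank hcon
    have h1 : LinearIndependent QB (fun i => (x i : ℂ)) := LOG_indep (fun i => (x i).2.2)
      (hx.map' (Submodule.subtype _) (Submodule.ker_subtype _))
    have h2 : LinearIndependent QB (fun i => (⟨(x i : ℂ), hVU _ (x i).2.1⟩ : U)) :=
      LinearIndependent.of_comp U.subtype h1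
    have h3 := h2.fintype_card_le_finrank
    rw [Fintype.card_fin] at h3
    omega
  have hf : Module.Finite ℚ (V ⊓ LOG : Submodule ℚ ℂ) := by
    rw [← Module.rank_lt_aleph0_iff]
    exact hr.trans (Cardinal.natCast_lt_aleph0)
  refine ⟨hf, ?_⟩
  rw [← Module.finrank_eq_rank, Nat.cast_lt] at hr
  omega

/-- a space of finite dimension over the algebraic numbers is countable -/
theorem countable_of_finite (U : Submodule QB ℂ) [Module.Finite QB U] : Countable U := by
  have hQB : Countable QB := by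
    have h1 : {w : ℂ | IsAlgebraic ℚ w}.Countable := Algebraic.countable ℚ ℂ
    have h2 : Set.Countable ((QB : IntermediateField ℚ ℂ) : Set ℂ) := by
      refine h1.mono fun w hw => ?_
      exact mem_algebraicClosure_iff.1 hw
    exact h2.to_subtype
  let b := Module.finBasis QB U
  exact (b.equivFun.toEquiv.countable_iff).2 inferInstance

/-- **Rational subspaces of finite-dimensional spaces over the algebraic numbers.** -/
theorem powers {g : ℕ} (L : ℕ) (t : Fin g → ℂ) (V : Submodule ℚ ℂ) (U : Submodule QB ℂ)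
    [Module.Finite QB U] (hVU : ∀ v ∈ V, v ∈ U) :
    ∃ (ι : Type) (z : ι → ℂ) (s : Finset ℂ), s.card ≤ finrank QB U + g + L ∧
      LinearIndependent ℚ z ∧ Submodule.span ℚ (Set.range z ∪ s) = V ∧
      ∀ (n : ℕ) (σ : Fin n → ι), Function.Injective σ → GoodT QB t L (fun i => cexp (z (σ i))) := by
  classical
  have hUc := countable_of_finite U
  have hc : Countable V := by
    have h1 : (U : Set ℂ).Countable := hUc
    exact (h1.mono (fun v hv => hVU v hv) : (V : Set ℂ).Countable).to_subtype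
  obtain ⟨ι, z, s, hs, hz, hsp, hgood⟩ := powers_log L t V hc
  obtain ⟨hf, hd⟩ := finrank_log_le V U hVU
  obtain ⟨s', hs1, hs2⟩ := exists_finset (V ⊓ LOG : Submodule ℚ ℂ)
  refine ⟨ι, z, s' ∪ s, ?_, hz, ?_, hgood⟩
  · have h1 := Finset.card_union_le s' s
    omega
  · rw [Finset.coe_union, Set.union_left_comm, Submodule.span_union, hs2]
    exact hsp

end Pool.Agent.Zk44.UQ
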