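import Mathlib
import Pool.Agent.Zk44.UP.ExpBasis
import Pool.Agent.Zk44.UP.Dich

/-!
# One basis for all lengths of computations
-/

set_option autoImplicit false

namespace Pool.Agent.Zk44.UQ

open Module Complex
open Pool.Agent.R351 hiding tay tay_const
open Pool.Agent.H301R2.SSE (QB)
open Pool.Agent.Zk44.DT (infinite_QB exists_seq)
open Pool.Agent.Zk44.UP
open Pool.Agent.Zk44.GE (ap)
open Pool.Agent.Zk44.XO (GoodE)

section FromSeq

variable (V : Submodule ℚ ℂ) (P : ℕ) (S : ℕ → Prop)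

/-- A basis from a sequence of choices, with its numbering. -/
theorem basis_of_seq' (hne : ∃ v ∈ V, v ≠ 0) (e : ℕ → V) (he : Function.Surjective e) (z : ℕ → ℂ)
    (hz : ∀ N, (∀ i : Fin N, z i ∈ V) → LinearIndependent ℚ (fun i : Fin N => z i) →
      ¬ V ≤ Submodule.span ℚ (Set.range fun i : Fin N => z i) →
      z N ∈ V ∧ z N ∉ Submodule.span ℚ (Set.range fun i : Fin N => z i) ∧ S N ∧
      (P < N → ∀ k, (∀ k' < k, (e k' : ℂ) ∈ Submodule.span ℚ (Set.range fun i : Fin N => z i)) →
        (e k : ℂ) ∈ Submodule.span ℚ (insert (z N) (Set.range fun i : Fin N => z i)))) :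
    ∃ (ι : Set ℕ) (b : Basis ι ℚ V), (∀ i : ι, (b i : ℂ) = z i) ∧ (∀ i ∈ ι, ∀ j < i, j ∈ ι) ∧
      ∀ N ∈ ι, S N := by
  classical
  -- one step
  have hsnoc : ∀ N, (∀ i : Fin N, z i ∈ V) → LinearIndependent ℚ (fun i : Fin N => z i) →
      ¬ V ≤ Submodule.span ℚ (Set.range fun i : Fin N => z i) →
      (∀ i : Fin (N + 1), z i ∈ V) ∧ LinearIndependent ℚ (fun i : Fin (N + 1) => z i) := by
    intro N h1 h2 h3
    obtain ⟨k1, k2, -, -⟩ := hz N h1 h2 h3
    refine ⟨?_, linInd_succ h2 k2⟩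
    intro i
    refine Fin.lastCases ?_ (fun i => ?_) i
    · exact k1
    · exact h1 i
  by_cases hfin : Module.Finite ℚ V
  · -- finite dimension
    set D := finrank ℚ V with hD
    have hns : ∀ N < D, LinearIndependent ℚ (fun i : Fin N => z i) →
        ¬ V ≤ Submodule.span ℚ (Set.range fun i : Fin N => z i) := by
      intro N hN h1 h2
      have hfs : Module.Finite ℚ (Submodule.span ℚ (Set.range fun i : Fin N => z i)) :=
        FiniteDimensional.span_of_finite _ (Set.finite_range _)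
      have h3 := Submodule.finrank_mono h2
      have h4 : finrank ℚ (Submodule.span ℚ (Set.range fun i : Fin N => z i)) ≤ N :=
        (finrank_range_le_card _).trans (by rw [Fintype.card_fin])
      omega
    have hall : ∀ N ≤ D, (∀ i : Fin N, z i ∈ V) ∧ LinearIndependent ℚ (fun i : Fin N => z i) := by
      intro N
      induction N with
      | zero => exact fun _ => ⟨fun i => i.elim0, linearIndependent_empty_type⟩
      | succ N ih =>
        intro hN
        obtain ⟨h1, h2⟩ := ih (by omega)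
        exact hsnoc N h1 h2 (hns N (by omega) h2)
    obtain ⟨hDV, hDi⟩ := hall D le_rfl
    have hS : ∀ j < D, S j := by
      intro j hj
      obtain ⟨h1, h2⟩ := hall j hj.le
      exact (hz j h1 h2 (hns j hj h2)).2.2.1
    let v : Fin D → V := fun i => ⟨z i, hDV i⟩
    have hv : LinearIndependent ℚ v := LinearIndependent.of_comp V.subtype hDi
    have hpos : 0 < D := by
      obtain ⟨v, hvV, hv0⟩ := hne
      have : Nontrivial V := ⟨⟨⟨v, hvV⟩, 0, fun h => hv0 (congrArg Subtype.val h)⟩⟩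
      exact Module.finrank_pos
    have hne' : Nonempty (Fin D) := ⟨⟨0, hpos⟩⟩
    let b : Basis (Fin D) ℚ V := basisOfLinearIndependentOfCardEqFinrank hv (by rw [Fintype.card_fin])
    have hb : ∀ i, (b i : ℂ) = z i := by
      intro i
      show ((basisOfLinearIndependentOfCardEqFinrank hv (by rw [Fintype.card_fin]) i : V) : ℂ) = z i
      rw [coe_basisOfLinearIndependentOfCardEqFinrank]
    refine ⟨{m | m < D}, b.reindex Fin.equivSubtype, ?_, ?_, fun N hN => hS N hN⟩
    · intro i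
      rw [Basis.reindex_apply, hb]
      rfl
    · intro i hi j hj
      exact lt_trans hj hi
  · -- infinite dimension
    have hns : ∀ N, ¬ V ≤ Submodule.span ℚ (Set.range fun i : Fin N => z i) := by
      intro N h2
      have hfs : Module.Finite ℚ (Submodule.span ℚ (Set.range fun i : Fin N => z i)) :=
        FiniteDimensional.span_of_finite _ (Set.finite_range _)
      exact hfin (Submodule.finiteDimensional_of_le h2)
    have hall : ∀ N, (∀ i : Fin N, z i ∈ V) ∧ LinearIndependent ℚ (fun i : Fin N => z i) := by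
      intro N
      induction N with
      | zero => exact ⟨fun i => i.elim0, linearIndependent_empty_type⟩
      | succ N ih => exact hsnoc N ih.1 ih.2 (hns N)
    have hzV : ∀ j, z j ∈ V := fun j => (hall (j + 1)).1 (Fin.last j)
    have hS : ∀ j, S j := fun j => (hz j (hall j).1 (hall j).2 (hns j)).2.2.1
    have hli : LinearIndependent ℚ z := linInd_all fun N => (hall N).2
    have hspan : ∀ k, ∃ N, ∀ k' ≤ k, (e k' : ℂ) ∈ Submodule.span ℚ (Set.range fun i : Fin N => z i) := by
      have hstep : ∀ k N, (∀ k' < k, (e k' : ℂ) ∈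
          Submodule.span ℚ (Set.range fun i : Fin N => z i)) → ∃ N, ∀ k' ≤ k, (e k' : ℂ) ∈
            Submodule.span ℚ (Set.range fun i : Fin N => z i) := by
        intro k N hN
        have hmono : ∀ {N N' : ℕ}, N ≤ N' → Submodule.span ℚ (Set.range fun i : Fin N => z i) ≤
            Submodule.span ℚ (Set.range fun i : Fin N' => z i) := by
          intro N N' hNN
          apply Submodule.span_mono
          rintro _ ⟨i, rfl⟩
          exact ⟨⟨i, by omega⟩, rfl⟩
        set N' := max N (P + 1) with hN'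
        have h1 : ∀ k' < k, (e k' : ℂ) ∈ Submodule.span ℚ (Set.range fun i : Fin N' => z i) :=
          fun k' hk' => hmono (le_max_left _ _) (hN k' hk')
        have h2 := (hz N' (hall N').1 (hall N').2 (hns N')).2.2.2 (by omega) k h1
        refine ⟨N' + 1, fun k' hk' => ?_⟩
        rcases Nat.lt_or_ge k' k with h3 | h3
        · exact hmono (Nat.le_succ _) (h1 k' h3)
        · have h4 : k' = k := by omega
          rw [h4]
          refine Submodule.span_mono ?_ h2
          rintro _ (rfl | ⟨i, rfl⟩)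
          · exact ⟨Fin.last N', rfl⟩
          · exact ⟨⟨i, by omega⟩, rfl⟩
      intro k
      induction k with
      | zero => exact hstep 0 0 fun k' hk' => absurd hk' (Nat.not_lt_zero _)
      | succ k ih =>
        obtain ⟨N, hN⟩ := ih
        exact hstep (k + 1) N fun k' hk' => hN k' (by omega)
    let v : ℕ → V := fun j => ⟨z j, hzV j⟩
    have hv : LinearIndependent ℚ v := LinearIndependent.of_comp V.subtype hli
    have htop : ⊤ ≤ Submodule.span ℚ (Set.range v) := by
      intro w _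
      obtain ⟨k, rfl⟩ := he w
      obtain ⟨N, hN⟩ := hspan k
      have h1 : (e k : ℂ) ∈ (Submodule.span ℚ (Set.range v)).map V.subtype := by
        rw [Submodule.map_span]
        refine Submodule.span_mono ?_ (hN k le_rfl)
        rintro _ ⟨i, rfl⟩
        exact ⟨v i, ⟨i, rfl⟩, rfl⟩
      obtain ⟨w', hw', hw''⟩ := h1
      have h2 : w' = e k := Subtype.ext hw''
      rwa [h2] at hw'
    refine ⟨Set.univ, (Basis.mk hv htop).reindex (Equiv.Set.univ ℕ).symm, ?_, fun _ _ _ _ =>
      Set.mem_univ _, fun N _ => hS N⟩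
    intro i
    rw [Basis.reindex_apply, Basis.mk_apply]
    rfl

end FromSeq

section Levels

variable (V : Submodule ℚ ℂ) (Q : ℕ → (g : ℕ) → (Fin g → ℂ) → ℂ → Prop)
  (hpoly : ∀ (L g N : ℕ) (t : Fin g → ℂ) (e₀ : ℂ) (x : Fin N → ℂ), (∀ i, x i ∈ V) →
    LinearIndependent ℚ x → L * (L + 3) < N → ∃ f : MvPolynomial (Fin N) ℂ, f ≠ 0 ∧
      ∀ b : Fin N → ℚ, e₀ + ∑ i, (b i : ℂ) * x i ≠ 0 → ¬ Q L g t (e₀ + ∑ i, (b i : ℂ) * x i) →
        MvPolynomial.eval (fun i => (b i : ℂ)) f = 0)

include hpoly in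
/-- **One basis for all lengths.** -/
theorem one_basis (hcount : (V : Set ℂ).Countable) (L₀ : ℕ)
    (hdim : ((L₀ * (L₀ + 3) + 1 : ℕ) : Cardinal) ≤ Module.rank ℚ V) (ξ : ℕ → ℂ) (h : ℕ → ℕ) :
    ∃ (z : ℕ → ℂ) (ι : Set ℕ) (b : Basis ι ℚ V), (∀ i : ι, (b i : ℂ) = z i) ∧
      (∀ i ∈ ι, ∀ j < i, j ∈ ι) ∧ ∀ N ∈ ι, ∀ L, (L ≤ L₀ ∨ L * (L + 3) < N) →
        Q L (N + h N) (Fin.append (fun i : Fin N => z i) (fun o : Fin (h N) => ξ o)) (z N) := by
  classical
  have hV : Countable V := hcount.to_subtype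
  obtain ⟨e, he⟩ := exists_surjective_nat V
  obtain ⟨x', hx'⟩ := exists_linearIndependent_of_le_rank hdim
  have hx : LinearIndependent ℚ (fun i => (x' i : ℂ)) :=
    hx'.map' V.subtype (Submodule.ker_subtype _)
  have hne : ∃ v ∈ V, v ≠ 0 := ⟨x' 0, (x' 0).2, hx.ne_zero 0⟩
  let Q' : (g : ℕ) → (Fin g → ℂ) → ℂ → Prop := fun g t w => ∀ L, (L ≤ L₀ ∨ L * (L + 3) < g) →
    Q L (g + h g) (Fin.append t (fun o : Fin (h g) => ξ o)) w
  have hpoly' : ∀ (g N : ℕ) (t : Fin g → ℂ) (e₀ : ℂ) (x : Fin N → ℂ), (∀ i, x i ∈ V) →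
      LinearIndependent ℚ x → max (L₀ * (L₀ + 3)) (g - 1) < N → ∃ f : MvPolynomial (Fin N) ℂ, f ≠ 0 ∧
        ∀ b : Fin N → ℚ, e₀ + ∑ i, (b i : ℂ) * x i ≠ 0 → ¬ Q' g t (e₀ + ∑ i, (b i : ℂ) * x i) →
          MvPolynomial.eval (fun i => (b i : ℂ)) f = 0 := by
    intro g N t e₀ x hxV hx hN
    have h1 : ∀ L : ℕ, ∃ f : MvPolynomial (Fin N) ℂ, f ≠ 0 ∧ ((L ≤ L₀ ∨ L * (L + 3) < g) →
        ∀ b : Fin N → ℚ, e₀ + ∑ i, (b i : ℂ) * x i ≠ 0 →
          ¬ Q L (g + h g) (Fin.append t (fun o : Fin (h g) => ξ o)) (e₀ + ∑ i, (b i : ℂ) * x i) →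
            MvPolynomial.eval (fun i => (b i : ℂ)) f = 0) := by
      intro L
      by_cases hL : L ≤ L₀ ∨ L * (L + 3) < g
      · have hLN : L * (L + 3) < N := by
          rcases hL with hL | hL
          · have h2 : L * (L + 3) ≤ L₀ * (L₀ + 3) := Nat.mul_le_mul hL (by omega)
            omega
          · omega
        obtain ⟨f, hf0, hf⟩ := hpoly L (g + h g) N (Fin.append t (fun o : Fin (h g) => ξ o)) e₀ x hxV
          hx hLN
        exact ⟨f, hf0, fun _ => hf⟩
      · exact ⟨1, one_ne_zero, fun h => absurd h hL⟩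
    choose f hf0 hf using h1
    refine ⟨∏ L ∈ Finset.range (max L₀ g + 1), f L, Finset.prod_ne_zero_iff.2 fun L _ => hf0 L,
      fun b hb hQ => ?_⟩
    have hQ2 : ∃ L, (L ≤ L₀ ∨ L * (L + 3) < g) ∧
        ¬ Q L (g + h g) (Fin.append t (fun o : Fin (h g) => ξ o)) (e₀ + ∑ i, (b i : ℂ) * x i) := by
      by_contra hcon
      push Not at hcon
      exact hQ fun L hL => hcon L hL
    obtain ⟨L, hL, hLQ⟩ := hQ2
    rw [map_prod]
    refine Finset.prod_eq_zero (Finset.mem_range.2 ?_) (hf L hL b hb hLQ)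
    rcases hL with hL | hL
    · omega
    · have h2 : L ≤ L * (L + 3) := Nat.le_mul_of_pos_right L (by omega)
      omega
  obtain ⟨z, hz⟩ := exists_seq (M := ℂ) (fun N p w => (∀ i : Fin N, p i ∈ V) →
      LinearIndependent ℚ p → ¬ V ≤ Submodule.span ℚ (Set.range p) →
      w ∈ V ∧ w ∉ Submodule.span ℚ (Set.range p) ∧ Q' N p w ∧
      (L₀ * (L₀ + 3) < N → ∀ k, (∀ k' < k, (e k' : ℂ) ∈ Submodule.span ℚ (Set.range p)) →
        (e k : ℂ) ∈ Submodule.span ℚ (insert w (Set.range p)))) (by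
    intro N p
    by_cases hpV : ∀ i : Fin N, p i ∈ V
    swap
    · exact ⟨0, fun h => absurd h hpV⟩
    by_cases hp : LinearIndependent ℚ p
    swap
    · exact ⟨0, fun _ h => absurd h hp⟩
    by_cases hsp : V ≤ Submodule.span ℚ (Set.range p)
    · exact ⟨0, fun _ _ h => absurd hsp h⟩
    by_cases hN : L₀ * (L₀ + 3) < N
    · have hex : ∃ k, (e k : ℂ) ∉ Submodule.span ℚ (Set.range p) := by
        by_contra hcon
        push Not at hcon
        apply hsp
        intro v hv
        obtain ⟨k, hk⟩ := he ⟨v, hv⟩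
        have h1 := hcon k
        rw [hk] at h1
        exact h1
      obtain ⟨w, h1, h2, h3, h4⟩ := stage_big V (fun g => max (L₀ * (L₀ + 3)) (g - 1)) Q' hpoly' p p
        hpV hp (by
          show max (L₀ * (L₀ + 3)) (N - 1) < N
          omega) (e (Nat.find hex)).2 (Nat.find_spec hex)
      refine ⟨w, fun _ _ _ => ⟨h1, h2, h3, fun _ k hk => ?_⟩⟩
      by_cases hk2 : (e k : ℂ) ∈ Submodule.span ℚ (Set.range p)
      · exact Submodule.span_mono (Set.subset_insert _ _) hk2
      · have h5 : Nat.find hex ≤ k := Nat.find_min' hex hk2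
        have h6 : ¬ Nat.find hex < k := fun h => Nat.find_spec hex (hk _ h)
        have h7 : k = Nat.find hex := by omega
        rw [h7]
        exact h4
    · obtain ⟨w, h1, h2, h3⟩ := stage_small V (fun g => max (L₀ * (L₀ + 3)) (g - 1)) Q' hpoly'
        (N := N) p p (fun i => (x' i : ℂ)) (fun i => (x' i).2) hx (by
          show max (L₀ * (L₀ + 3)) (N - 1) < L₀ * (L₀ + 3) + 1
          omega) (by omega)
      exact ⟨w, fun _ _ _ => ⟨h1, h2, h3, fun h => absurd h hN⟩⟩)
  obtain ⟨ι, b, hb, hlow, hS⟩ := basis_of_seq' V (L₀ * (L₀ + 3))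
    (fun N => Q' N (fun i : Fin N => z i) (z N)) hne e he z hz
  exact ⟨z, ι, b, hb, hlow, hS⟩

end Levels

section Tails

/-- from one number over the earlier ones to families -/
theorem tail_good {L M g : ℕ} (ξ : ℕ → ℂ) (h : ℕ → ℕ) (hh : Monotone h) (z : ℕ → ℂ) (ι : Set ℕ)
    (hlow : ∀ i ∈ ι, ∀ j < i, j ∈ ι) (hg : g ≤ h M)
    (hz : ∀ N ∈ ι, M ≤ N →
      Good1 QB (Fin.append (fun i : Fin N => z i) (fun o : Fin (h N) => ξ o)) L (z N))
    (n : ℕ) (σ : Fin n → ι) (hσ : Function.Injective σ) (hM : ∀ j, M ≤ (σ j : ℕ)) :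
    GoodT QB (Fin.append (fun i : Fin M => z i) (fun o : Fin g => ξ o)) L
      (fun j => z (σ j)) := by
  classical
  have hinf : Infinite QB := infinite_QB
  set N := Finset.univ.sup (fun j => (σ j : ℕ) - M + 1) with hN
  have hlt : ∀ j, (σ j : ℕ) - M < N := fun j =>
    Nat.lt_of_succ_le (Finset.le_sup (f := fun j => (σ j : ℕ) - M + 1) (Finset.mem_univ j))
  have h1 : GoodT QB (Fin.append (fun i : Fin M => z i) (fun o : Fin g => ξ o)) L
      (fun i : Fin N => z (M + i)) := by
    refine goodT_of_tower N (M + g) (Fin.append (fun i : Fin M => z i) (fun o : Fin g => ξ o))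
      (fun i => z (M + i)) ?_
    intro j hj
    -- the index `M + j` belongs to the index set
    obtain ⟨j₀, -, hj₀⟩ := (Finset.lt_sup_iff).1 hj
    have hmem : M + j ∈ ι := by
      have h2 : M + j ≤ (σ j₀ : ℕ) := by
        have := hM j₀
        omega
      rcases h2.lt_or_eq with h3 | h3
      · exact hlow _ (σ j₀).2 _ h3
      · rw [h3]
        exact (σ j₀).2
    have hle : g ≤ h (M + j) := hg.trans (hh (Nat.le_add_right M j))
    refine good1_reindex (T' := Fin.append (fun i : Fin (M + j) => z i)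
        (fun o : Fin (h (M + j)) => ξ o))
      (fun o => Fin.addCases (fun i => Fin.castAdd (h (M + j)) (Fin.natAdd M i))
        (fun o => Fin.addCases (fun i : Fin M => Fin.castAdd (h (M + j)) (Fin.castAdd j i))
          (fun o : Fin g => Fin.natAdd (M + j) (Fin.castLE hle o)) o) o) ?_
      (hz (M + j) hmem (Nat.le_add_right _ _))
    intro o
    refine Fin.addCases (fun i => ?_) (fun o => ?_) o
    · rw [Fin.append_left, Fin.addCases_left, Fin.append_left]
      rfl
    · rw [Fin.append_right, Fin.addCases_right]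
      refine Fin.addCases (fun i => ?_) (fun o => ?_) o
      · rw [Fin.append_left, Fin.addCases_left, Fin.append_left]
        rfl
      · rw [Fin.append_right, Fin.addCases_right, Fin.append_right]
        rfl
  have h2 := goodT_comp (fun j => (⟨(σ j : ℕ) - M, hlt j⟩ : Fin N)) (fun i j hij => hσ (Subtype.ext (by
    have h3 := congrArg (fun q : Fin N => (q : ℕ)) hij
    simp only at h3
    have := hM i
    have := hM j
    omega))) h1
  have h3 : (fun j => z (σ j)) = (fun j => (fun i : Fin N => z (M + i)) ⟨(σ j : ℕ) - M, hlt j⟩) := by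
    funext j
    show z (σ j) = z (M + ((σ j : ℕ) - M))
    congr 1
    have := hM j
    omega
  rw [h3]
  exact h2

/-- the same with all exponentials -/
theorem tail_goodE {L M g : ℕ} (ξ : ℕ → ℂ) (h : ℕ → ℕ) (hh : Monotone h) (z : ℕ → ℂ) (ι : Set ℕ)
    (hlow : ∀ i ∈ ι, ∀ j < i, j ∈ ι) (hg : g ≤ h M)
    (hz : ∀ N ∈ ι, M ≤ N → QE L (N + h N)
      (Fin.append (fun i : Fin N => z i) (fun o : Fin (h N) => ξ o)) (z N))
    (n : ℕ) (σ : Fin n → ι) (hσ : Function.Injective σ) (hM : ∀ j, M ≤ (σ j : ℕ)) :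
    GoodE L (Fin.append (fun i : Fin M => z i) (fun o : Fin g => ξ o)) (fun j => z (σ j)) := by
  classical
  set N := Finset.univ.sup (fun j => (σ j : ℕ) - M + 1) with hN
  have hlt : ∀ j, (σ j : ℕ) - M < N := fun j =>
    Nat.lt_of_succ_le (Finset.le_sup (f := fun j => (σ j : ℕ) - M + 1) (Finset.mem_univ j))
  have h1 : GoodE L (Fin.append (fun i : Fin M => z i) (fun o : Fin g => ξ o))
      (fun i : Fin N => z (M + i)) := by
    refine goodE_of_tower N (M + g) (Fin.append (fun i : Fin M => z i) (fun o : Fin g => ξ o))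
      (fun i => z (M + i)) ?_
    intro j hj
    obtain ⟨j₀, -, hj₀⟩ := (Finset.lt_sup_iff).1 hj
    have hmem : M + j ∈ ι := by
      have h2 : M + j ≤ (σ j₀ : ℕ) := by
        have := hM j₀
        omega
      rcases h2.lt_or_eq with h3 | h3
      · exact hlow _ (σ j₀).2 _ h3
      · rw [h3]
        exact (σ j₀).2
    have hle : g ≤ h (M + j) := hg.trans (hh (Nat.le_add_right M j))
    refine QE_reindex (T' := Fin.append (fun i : Fin (M + j) => z i)
        (fun o : Fin (h (M + j)) => ξ o))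
      (fun o => Fin.addCases (fun i => Fin.castAdd (h (M + j)) (Fin.natAdd M i))
        (fun o => Fin.addCases (fun i : Fin M => Fin.castAdd (h (M + j)) (Fin.castAdd j i))
          (fun o : Fin g => Fin.natAdd (M + j) (Fin.castLE hle o)) o) o) ?_
      (hz (M + j) hmem (Nat.le_add_right _ _))
    intro o
    refine Fin.addCases (fun i => ?_) (fun o => ?_) o
    · rw [Fin.append_left, Fin.addCases_left, Fin.append_left]
      rfl
    · rw [Fin.append_right, Fin.addCases_right]
      refine Fin.addCases (fun i => ?_) (fun o => ?_) o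
      · rw [Fin.append_left, Fin.addCases_left, Fin.append_left]
        rfl
      · rw [Fin.append_right, Fin.addCases_right, Fin.append_right]
        rfl
  intro k γ
  have h2 := goodT_comp (fun j => (⟨(σ j : ℕ) - M, hlt j⟩ : Fin N)) (fun i j hij => hσ (Subtype.ext (by
    have h3 := congrArg (fun q : Fin N => (q : ℕ)) hij
    simp only at h3
    have := hM i
    have := hM j
    omega))) (h1 k γ)
  have h3 : (fun j => z (σ j)) = (fun j => (fun i : Fin N => z (M + i)) ⟨(σ j : ℕ) - M, hlt j⟩) := by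
    funext j
    show z (σ j) = z (M + ((σ j : ℕ) - M))
    congr 1
    have := hM j
    omega
  rw [h3]
  exact h2

end Tails

section Log

/-- **One basis of a space of logarithms.** -/
theorem one_basis_log (L₀ : ℕ) (V : Submodule ℚ ℂ) (hV : ∀ v ∈ V, IsAlgebraic ℚ (cexp v))
    (hdim : ((L₀ * (L₀ + 3) + 1 : ℕ) : Cardinal) ≤ Module.rank ℚ V) (ξ : ℕ → ℂ) (h : ℕ → ℕ)
    (hh : Monotone h) :
    ∃ (z : ℕ → ℂ) (ι : Set ℕ) (b : Basis ι ℚ V), (∀ i : ι, (b i : ℂ) = z i) ∧
      (∀ i ∈ ι, ∀ j < i, j ∈ ι) ∧ ∀ L M g, (L ≤ L₀ ∨ L * (L + 3) < M) → g ≤ h M →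
        ∀ (n : ℕ) (σ : Fin n → ι), Function.Injective σ → (∀ j, M ≤ (σ j : ℕ)) →
          GoodT QB (Fin.append (fun i : Fin M => z i) (fun o : Fin g => ξ o)) L
            (fun j => z (σ j)) := by
  obtain ⟨z, ι, b, hb, hlow, hS⟩ := one_basis V (fun L g t w => Good1 QB t L w)
    (fun L g N t e₀ x hxV hx hN =>
      poly_log t e₀ x (Pool.Agent.Zk44.XO.LOG_indep (fun i => hV _ (hxV i)) hx) hN)
    (countable_log.mono fun v hv => hV v hv) L₀ hdim ξ h
  refine ⟨z, ι, b, hb, hlow, fun L M g hL hg n σ hσ hM => ?_⟩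
  refine tail_good ξ h hh z ι hlow hg (fun N hN hMN => hS N hN L ?_) n σ hσ hM
  rcases hL with hL | hL
  · exact Or.inl hL
  · exact Or.inr (lt_of_lt_of_le hL hMN)

end Log

end Pool.Agent.Zk44.UQ
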