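import Mathlib
import Pool.Agent.Zk44.UQ.OneBasis

/-!
# One basis for all lengths of computations, with all exponentials of algebraic numbers
-/

set_option autoImplicit false

namespace Pool.Agent.Zk44.UQ

open Module Complex
open Pool.Agent.R351 hiding tay tay_const
open Pool.Agent.H301R2.SSE (QB)
open Pool.Agent.Zk44.UP
open Pool.Agent.Zk44.GE (ap)
open Pool.Agent.Zk44.XO (GoodE)

section

variable (hder : ∃ Δ : Derivation QB ℂ ℂ, (∀ γ : QB, Δ (cexp γ) = (γ : ℂ) * cexp γ) ∧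
    (∀ z, Δ z = 0 → ∃ a : QB, algebraMap QB ℂ a = z) ∧
    ∀ (n : ℕ) (c y : Fin n → ℂ) (r : ℂ), (∀ j, Δ (c j) = 0) →
      Δ r = ∑ j, c j * (Δ (y j) / y j) → Δ r = 0)

include hder in
/-- **One basis of a space of logarithms, all exponentials.** -/
theorem one_basis_exp (L₀ : ℕ) (V : Submodule ℚ ℂ) (hV : ∀ v ∈ V, IsAlgebraic ℚ (cexp v))
    (hdim : ((L₀ * (L₀ + 3) + 1 : ℕ) : Cardinal) ≤ Module.rank ℚ V) (ξ : ℕ → ℂ) (h : ℕ → ℕ)
    (hh : Monotone h) :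
    ∃ (z : ℕ → ℂ) (ι : Set ℕ) (b : Basis ι ℚ V), (∀ i : ι, (b i : ℂ) = z i) ∧
      (∀ i ∈ ι, ∀ j < i, j ∈ ι) ∧ ∀ L M g, (L ≤ L₀ ∨ L * (L + 3) < M) → g ≤ h M →
        ∀ (n : ℕ) (σ : Fin n → ι), Function.Injective σ → (∀ j, M ≤ (σ j : ℕ)) →
          GoodE L (Fin.append (fun i : Fin M => z i) (fun o : Fin g => ξ o))
            (fun j => z (σ j)) := by
  obtain ⟨z, ι, b, hb, hlow, hS⟩ := one_basis V QE
    (fun L g N t e₀ x hxV hx hN =>
      poly_QE hder t e₀ x (Pool.Agent.Zk44.XO.LOG_indep (fun i => hV _ (hxV i)) hx) hN)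
    (countable_log.mono fun v hv => hV v hv) L₀ hdim ξ h
  refine ⟨z, ι, b, hb, hlow, fun L M g hL hg n σ hσ hM => ?_⟩
  refine tail_goodE ξ h hh z ι hlow hg (fun N hN hMN => hS N hN L ?_) n σ hσ hM
  rcases hL with hL | hL
  · exact Or.inl hL
  · exact Or.inr (lt_of_lt_of_le hL hMN)

end

end Pool.Agent.Zk44.UQ
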